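import Pool.Agent.helper73.BRZ.Spec

set_option autoImplicit false

namespace Pool.Agent.BRZ

open Matrix Module Pool.Agent.PR Pool.Agent.SHL

/-- a lattice stable under finitely many matrices has an adapted basis. -/
theorem LQ_lattice {q : ℕ} [Fact q.Prime] {d : ℕ} {ι : Type} [Finite ι] (Y : ι → Matrix (Fin d) (Fin d) ℚ_[q])
    (hmul : ∀ i j, ∃ c : ι →₀ ℤ, Y i * Y j = c.sum fun l z => z • Y l)
    (hone : ∃ c : ι →₀ ℤ, (1 : Matrix (Fin d) (Fin d) ℚ_[q]) = c.sum fun l z => z • Y l) :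
    ∃ (g : Matrix (Fin d) (Fin d) ℚ_[q]) (X : ι → Matrix (Fin d) (Fin d) ℤ_[q]), IsUnit g ∧
      ∀ i, Y i * g = g * (X i).map (PadicInt.Coe.ringHom (p := q)) := by
  classical
  -- the lattice
  obtain ⟨N, hN⟩ : ∃ N : Submodule ℤ_[q] (Fin d → ℚ_[q]), N = Submodule.span ℤ_[q]
    (Set.range fun x : ι × Fin d => Y x.1 *ᵥ Pi.single x.2 1) := ⟨_, rfl⟩
  have hgen : ∀ i j, Y i *ᵥ Pi.single j 1 ∈ N := by
    intro i j
    rw [hN]
    exact Submodule.subset_span ⟨(i, j), rfl⟩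
  have hfin : N.FG := by
    rw [hN]
    exact Submodule.fg_span (Set.finite_range _)
  have hcomb : ∀ (c : ι →₀ ℤ) (j : Fin d), (c.sum fun l z => z • Y l) *ᵥ Pi.single j 1 ∈ N := by
    intro c j
    rw [Finsupp.sum, Matrix.sum_mulVec]
    refine Submodule.sum_mem _ fun l _ => ?_
    rw [Matrix.smul_mulVec]
    have h1 : (c l) • (Y l *ᵥ Pi.single j 1) = ((c l : ℤ_[q])) • (Y l *ᵥ Pi.single j (1 : ℚ_[q])) :=
      (Int.cast_smul_eq_zsmul ℤ_[q] (c l) _).symm
    rw [h1]
    exact Submodule.smul_mem _ _ (hgen l j)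
  have hstd : ∀ j, (Pi.single j 1 : Fin d → ℚ_[q]) ∈ N := by
    intro j
    obtain ⟨c, hc⟩ := hone
    have := hcomb c j
    rw [← hc, Matrix.one_mulVec] at this
    exact this
  have hstab : ∀ i, ∀ v ∈ N, Y i *ᵥ v ∈ N := by
    intro i v hv
    have h1 : N ≤ N.comap ((Matrix.mulVecLin (Y i)).restrictScalars ℤ_[q]) := by
      conv_lhs => rw [hN]
      rw [Submodule.span_le]
      rintro _ ⟨⟨l, j⟩, rfl⟩
      simp only [Submodule.comap_coe, Set.mem_preimage, LinearMap.coe_restrictScalars,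
        Matrix.mulVecLin_apply, SetLike.mem_coe, Matrix.mulVec_mulVec]
      obtain ⟨c, hc⟩ := hmul i l
      rw [hc]
      exact hcomb c j
    exact h1 hv
  -- a basis
  have : Module.Finite ℤ_[q] N := Module.Finite.iff_fg.2 hfin
  have : Module.Free ℤ_[q] N := Module.free_of_finite_type_torsion_free'
  obtain ⟨κ, hκ⟩ : ∃ κ, κ = Module.Free.ChooseBasisIndex ℤ_[q] N := ⟨_, rfl⟩
  let b := Module.Free.chooseBasis ℤ_[q] N
  have hli0 : LinearIndependent ℤ_[q] (fun k => ((b k : N) : Fin d → ℚ_[q])) :=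
    b.linearIndependent.map' N.subtype (Submodule.ker_subtype N)
  have hli : LinearIndependent ℚ_[q] (fun k => ((b k : N) : Fin d → ℚ_[q])) :=
    (LinearIndependent.iff_fractionRing ℤ_[q] ℚ_[q]).1 hli0
  have hsp : ⊤ ≤ Submodule.span ℚ_[q] (Set.range fun k => ((b k : N) : Fin d → ℚ_[q])) := by
    have h1 : ∀ v ∈ N, v ∈ Submodule.span ℚ_[q] (Set.range fun k => ((b k : N) : Fin d → ℚ_[q])) := by
      intro v hv
      have h2 := b.sum_repr ⟨v, hv⟩
      have h3 : v = ∑ k, (b.repr ⟨v, hv⟩ k) • ((b k : N) : Fin d → ℚ_[q]) := by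
        have h4 := congrArg (N.subtype) h2
        rw [map_sum] at h4
        simpa using h4.symm
      rw [h3]
      refine Submodule.sum_mem _ fun k _ => ?_
      rw [← algebraMap_smul ℚ_[q]]
      exact Submodule.smul_mem _ _ (Submodule.subset_span ⟨k, rfl⟩)
    intro v _
    rw [pi_eq_sum_univ' v]
    refine Submodule.sum_mem _ fun j _ => Submodule.smul_mem _ _ ?_
    have h5 := h1 _ (hstd j)
    exact h5
  have hcard : Fintype.card (Module.Free.ChooseBasisIndex ℤ_[q] N) = d := by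
    have h1 := Module.finrank_eq_card_basis (Basis.mk hli hsp)
    rw [Module.finrank_fin_fun] at h1
    exact h1.symm
  let e := Fintype.equivFinOfCardEq hcard
  let β := b.reindex e
  have hliβ : LinearIndependent ℚ_[q] (fun k => ((β k : N) : Fin d → ℚ_[q])) := by
    have h1 : (fun k => ((β k : N) : Fin d → ℚ_[q])) =
        (fun k => ((b k : N) : Fin d → ℚ_[q])) ∘ e.symm := by
      ext k
      simp [β]
    rw [h1]
    exact hli.comp _ e.symm.injective
  obtain ⟨g, hg⟩ : ∃ g : Matrix (Fin d) (Fin d) ℚ_[q], g = Matrix.of fun i j =>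
    ((β j : N) : Fin d → ℚ_[q]) i := ⟨_, rfl⟩
  obtain ⟨X, hX⟩ : ∃ X : ι → Matrix (Fin d) (Fin d) ℤ_[q], X = fun i => Matrix.of fun k j =>
    β.repr ⟨Y i *ᵥ ((β j : N) : Fin d → ℚ_[q]), hstab i _ (β j).2⟩ k := ⟨_, rfl⟩
  refine ⟨g, X, ?_, fun i => ?_⟩
  · rw [← Matrix.linearIndependent_cols_iff_isUnit]
    have h1 : g.col = fun k => ((β k : N) : Fin d → ℚ_[q]) := by
      ext k i
      rw [hg]
      rfl
    rw [h1]
    exact hliβ
  · ext a j
    have h2 := β.sum_repr ⟨Y i *ᵥ ((β j : N) : Fin d → ℚ_[q]), hstab i _ (β j).2⟩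
    have h3 : Y i *ᵥ ((β j : N) : Fin d → ℚ_[q]) = ∑ k, (X i k j) • ((β k : N) : Fin d → ℚ_[q]) := by
      have h4 := congrArg (N.subtype) h2
      rw [map_sum] at h4
      rw [hX]
      simpa using h4.symm
    have h5 := congrFun h3 a
    rw [Finset.sum_apply] at h5
    rw [Matrix.mul_apply, Matrix.mul_apply]
    have h6 : ∑ k, Y i a k * g k j = (Y i *ᵥ ((β j : N) : Fin d → ℚ_[q])) a := by
      rw [hg]
      rfl
    rw [h6, h5]
    refine Finset.sum_congr rfl fun k _ => ?_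
    rw [Pi.smul_apply, Algebra.smul_def, hg]
    exact mul_comm _ _

theorem LQ (hTRC : TRC_stmt) : LQ_stmt := by
  intro d D _ _ _ hd hcen S q _ ⟨φ⟩
  classical
  have hfr : finrank ℚ D = d * d := by
    rw [Module.finrank_eq_card_basis S.b, Fintype.card_fin]
  have hfs : ∀ (c : Fin (d * d) → ℤ), φ (∑ l, c l • S.b l) =
      (Finsupp.equivFunOnFinite.symm c).sum fun l z => z • φ (S.b l) := by
    intro c
    rw [map_sum, Finsupp.sum_fintype _ _ (fun i => by rw [zero_smul])]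
    refine Finset.sum_congr rfl fun l _ => ?_
    rw [map_zsmul]
    rfl
  obtain ⟨g, X, hg, hX⟩ := LQ_lattice (q := q) (fun i => φ (S.b i))
    (by
      intro i j
      obtain ⟨c, hc⟩ := S.mul i j
      exact ⟨Finsupp.equivFunOnFinite.symm c, by rw [← map_mul, hc, hfs]⟩)
    (by
      obtain ⟨c, hc⟩ := S.one
      exact ⟨Finsupp.equivFunOnFinite.symm c, by rw [← hfs, ← hc, map_one]⟩)
  have hgd : IsUnit g.det := (Matrix.isUnit_iff_isUnit_det g).1 hg
  let θ : D →+* Matrix (Fin d) (Fin d) ℚ_[q] :=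
    { toFun := fun x => g⁻¹ * φ x * g
      map_one' := by rw [map_one, mul_one, Matrix.nonsing_inv_mul _ hgd]
      map_mul' := by
        intro x y
        rw [map_mul]
        calc g⁻¹ * (φ x * φ y) * g = g⁻¹ * φ x * (1 * (φ y * g)) := by
              rw [one_mul]; simp only [mul_assoc]
          _ = g⁻¹ * φ x * ((g * g⁻¹) * (φ y * g)) := by rw [Matrix.mul_nonsing_inv _ hgd]
          _ = _ := by simp only [mul_assoc]
      map_zero' := by rw [map_zero, mul_zero, zero_mul]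
      map_add' := by intro x y; rw [map_add, mul_add, add_mul] }
  have hθ : ∀ x, θ x = g⁻¹ * φ x * g := fun _ => rfl
  have hθX : ∀ i, θ (S.b i) = (X i).map (PadicInt.Coe.ringHom (p := q)) := by
    intro i
    rw [hθ, mul_assoc, hX, ← mul_assoc, Matrix.nonsing_inv_mul _ hgd, one_mul]
  -- traces
  have hd0 : (d : ℚ_[q]) ≠ 0 := by
    have : d ≠ 0 := by omega
    exact_mod_cast this
  have htr : ∀ i j, (X i * X j).trace = (S.T i j : ℤ_[q]) := by
    intro i j
    have h1 := (hTRC D d hcen hfr ℚ_[q] θ (S.b i * S.b j)).1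
    rw [S.tr i j, map_mul, hθX, hθX, ← Matrix.map_mul] at h1
    have h2 : (((d : ℚ) * ((S.T i j : ℤ) : ℚ) : ℚ) : ℚ_[q]) = (d : ℚ_[q]) * ((S.T i j : ℤ) : ℚ_[q]) := by
      push_cast
      rfl
    rw [h2] at h1
    have h3 := mul_left_cancel₀ hd0 h1
    have h4 : ((X i * X j).map (PadicInt.Coe.ringHom (p := q))).trace =
        (PadicInt.Coe.ringHom (p := q)) (X i * X j).trace := by
      rw [Matrix.trace, Matrix.trace, map_sum]
      rfl
    rw [h4] at h3
    have h5 : ((S.T i j : ℤ) : ℚ_[q]) = (PadicInt.Coe.ringHom (p := q)) ((S.T i j : ℤ) : ℤ_[q]) := by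
      rw [map_intCast]
    rw [h5] at h3
    exact Subtype.coe_injective h3
  refine ⟨θ, X, hθX, ?_⟩
  -- the coordinate matrices
  let e : Fin (d * d) ≃ Fin d × Fin d := finProdFinEquiv.symm
  obtain ⟨C, hC⟩ : ∃ C : Matrix (Fin (d * d)) (Fin (d * d)) ℤ_[q],
    C = Matrix.of fun i m => X i (e m).1 (e m).2 := ⟨_, rfl⟩
  obtain ⟨C2, hC2⟩ : ∃ C2 : Matrix (Fin (d * d)) (Fin (d * d)) ℤ_[q],
    C2 = Matrix.of fun i m => X i (e m).2 (e m).1 := ⟨_, rfl⟩
  have hCC : C * C2ᵀ = S.T.map (Int.castRingHom ℤ_[q]) := by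
    ext i j
    rw [Matrix.mul_apply, Matrix.map_apply, hC, hC2]
    simp only [Matrix.of_apply, Matrix.transpose_apply]
    have h1 := htr i j
    rw [Matrix.trace] at h1
    simp only [Matrix.diag_apply, Matrix.mul_apply] at h1
    have h2 : ∑ m, X i (e m).1 (e m).2 * X j (e m).2 (e m).1 =
        ∑ x : Fin d × Fin d, X i x.1 x.2 * X j x.2 x.1 :=
      Equiv.sum_comp e (fun x : Fin d × Fin d => X i x.1 x.2 * X j x.2 x.1)
    rw [h2, Fintype.sum_prod_type, h1]
    rfl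
  have hdet : IsUnit C.det := by
    have h1 := congrArg Matrix.det hCC
    rw [Matrix.det_mul] at h1
    have h2 : (S.T.map (Int.castRingHom ℤ_[q])).det = ((S.T.det : ℤ) : ℤ_[q]) := by
      have := (Int.castRingHom ℤ_[q]).map_det S.T
      simpa using this.symm
    have h3 : ((S.T.det : ℤ) : ℤ_[q]) ^ 2 = 1 := by
      have := S.det
      exact_mod_cast congrArg (fun z : ℤ => (z : ℤ_[q])) this
    refine IsUnit.of_mul_eq_one (C2ᵀ.det * (S.T.map (Int.castRingHom ℤ_[q])).det) ?_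
    rw [← mul_assoc, h1, h2, ← sq, h3]
  have hvec : ∀ (M : Matrix (Fin d) (Fin d) ℤ_[q]) (c : Fin (d * d) → ℤ_[q]),
      M = ∑ i, c i • X i ↔ c ᵥ* C = fun m => M (e m).1 (e m).2 := by
    intro M c
    constructor
    · intro h
      ext m
      rw [Matrix.vecMul, dotProduct, h, Matrix.sum_apply]
      refine Finset.sum_congr rfl fun i _ => ?_
      rw [hC, Matrix.smul_apply, smul_eq_mul]
      rfl
    · intro h
      ext k l
      have h1 := congrFun h (e.symm (k, l))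
      rw [Matrix.vecMul, dotProduct] at h1
      simp only [Equiv.apply_symm_apply] at h1
      rw [← h1, Matrix.sum_apply]
      refine Finset.sum_congr rfl fun i _ => ?_
      rw [hC, Matrix.smul_apply, smul_eq_mul]
      change c i * X i (e (e.symm (k, l))).1 (e (e.symm (k, l))).2 = c i * X i k l
      rw [Equiv.apply_symm_apply]
  intro M
  obtain ⟨v, hv⟩ : ∃ v : Fin (d * d) → ℤ_[q], v = fun m => M (e m).1 (e m).2 := ⟨_, rfl⟩
  have hvec' : ∀ c : Fin (d * d) → ℤ_[q], M = ∑ i, c i • X i ↔ c ᵥ* C = v := by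
    intro c
    rw [hv]
    exact hvec M c
  refine ⟨v ᵥ* C⁻¹, (hvec' _).2 ?_, ?_⟩
  · rw [Matrix.vecMul_vecMul, Matrix.nonsing_inv_mul _ hdet, Matrix.vecMul_one]
  · intro c hc
    have hc' := (hvec' c).1 hc
    rw [← hc', Matrix.vecMul_vecMul, Matrix.mul_nonsing_inv _ hdet, Matrix.vecMul_one]

end Pool.Agent.BRZ
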